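import Pool.Agent.H78.XQ.Targets

/-!
# A random restriction filled with a string of given weight (module EXC of xq_modules)
-/

set_option autoImplicit false

namespace Pool.Agent.H4.XQ

open Finset Pool.Agent.H78.XQ
open Pool.Agent.H68.AC (PA Wt wt w1 fd mrg Ext ind)

lemma exc_w1 (q : ℝ) : ∑ a : Option Bool, w1 q (1 / 2) a = 1 := by
  rw [Fintype.sum_option, Fintype.sum_bool]
  simp only [w1]
  ring

lemma exc_Wt (V : Type) [Fintype V] [DecidableEq V] (D : ℕ) (q : ℝ) :
    ∑ R : Fin D → PA V, Wt q (1 / 2) R = 1 := by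
  have h1 : ∑ κ : PA V, wt q (1 / 2) κ = 1 := by
    unfold wt
    rw [← Fintype.prod_sum (fun (_ : V) (a : Option Bool) => w1 q (1 / 2) a),
      Finset.prod_congr rfl fun _ _ => exc_w1 q, Finset.prod_const_one]
  unfold Wt
  rw [← Fintype.prod_sum (fun (_ : Fin D) (κ : PA V) => wt q (1 / 2) κ),
    Finset.prod_congr rfl fun _ _ => h1, Finset.prod_const_one]

lemma exc_w1_nonneg {q : ℝ} (h0 : 0 ≤ q) (h1 : q ≤ 1) (a : Option Bool) : 0 ≤ w1 q (1 / 2) a := by
  rcases a with _ | _ | _
  · exact h0
  · show 0 ≤ (1 - q) * (1 - 1 / 2)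
    nlinarith
  · show 0 ≤ (1 - q) * (1 / 2)
    nlinarith

lemma exc_Wt_nonneg {V : Type} [Fintype V] {D : ℕ} {q : ℝ} (h0 : 0 ≤ q) (h1 : q ≤ 1)
    (R : Fin D → PA V) : 0 ≤ Wt q (1 / 2) R :=
  Finset.prod_nonneg fun _ _ => Finset.prod_nonneg fun _ _ => exc_w1_nonneg h0 h1 _

section perm

variable {V : Type}

/-- transport of all rounds -/
def excR {D : ℕ} (σ : V ≃ V) : (Fin D → PA V) ≃ (Fin D → PA V) where
  toFun R := fun j v => R j (σ v)
  invFun R := fun j v => R j (σ.symm v)
  left_inv R := by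
    funext j v
    simp
  right_inv R := by
    funext j v
    simp

lemma exc_fd {D : ℕ} (σ : V ≃ V) (R : Fin D → PA V) (n : ℕ) :
    fd (excR σ R) n = fun v => fd R n (σ v) := by
  induction n with
  | zero => rfl
  | succ n ih =>
    funext v
    simp only [fd, mrg]
    rw [ih]
    by_cases h : n < D
    · simp only [dif_pos h]
      rfl
    · simp only [dif_neg h]

lemma exc_Wt_perm [Fintype V] {D : ℕ} (q : ℝ) (σ : V ≃ V) (R : Fin D → PA V) :
    Wt q (1 / 2) (excR σ R) = Wt q (1 / 2) R := by
  unfold Wt wt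
  refine Finset.prod_congr rfl fun j _ => ?_
  exact Equiv.prod_comp σ fun v => w1 q (1 / 2) (R j v)

variable [Fintype V] [DecidableEq V]

lemma exc_nt (σ : V ≃ V) (y : V → Bool) : nt (fun v => y (σ v)) = nt y := by
  unfold nt
  refine Finset.card_bij (fun v _ => σ v) ?_ ?_ ?_
  · intro v hv
    simpa using hv
  · intro a _ b _ h
    exact σ.injective h
  · intro b hb
    exact ⟨σ.symm b, by simpa using hb, by simp⟩

lemma exc_mem {κ : V → Option Bool} {W : ℕ} {y : V → Bool} :
    y ∈ ws κ W ↔ Ext κ y ∧ nt y = W := by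
  unfold ws
  simp

lemma exc_ext (σ : V ≃ V) (κ : V → Option Bool) (y : V → Bool) :
    Ext (fun v => κ (σ v)) (fun v => y (σ v)) ↔ Ext κ y := by
  constructor
  · intro h v b hv
    have := h (σ.symm v) b (by simpa using hv)
    simpa using this
  · intro h v b hv
    exact h (σ v) b hv

lemma exc_ws (σ : V ≃ V) (κ : V → Option Bool) (W : ℕ) (y : V → Bool) :
    (fun v => y (σ v)) ∈ ws (fun v => κ (σ v)) W ↔ y ∈ ws κ W := by
  rw [exc_mem, exc_mem, exc_ext, exc_nt]

lemma exc_card (σ : V ≃ V) (κ : V → Option Bool) (W : ℕ) :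
    (ws (fun v => κ (σ v)) W).card = (ws κ W).card := by
  symm
  refine Finset.card_bij (fun y _ v => y (σ v)) ?_ ?_ ?_
  · intro y hy
    exact (exc_ws σ κ W y).2 hy
  · intro a _ b _ h
    funext v
    have := congrFun h (σ.symm v)
    simpa using this
  · intro b hb
    have h1 : (fun v => b (σ.symm (σ v))) = b := by
      funext v
      simp
    refine ⟨fun v => b (σ.symm v), ?_, by simpa using h1⟩
    rw [← exc_ws σ κ W]
    simp only [Equiv.symm_apply_apply]
    exact hb

lemma exc_perm {y y' : V → Bool} (h : nt y = nt y') : ∃ σ : V ≃ V, y' = fun v => y (σ v) := by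
  classical
  have h1 : Fintype.card {v // y' v = true} = Fintype.card {v // y v = true} := by
    rw [Fintype.card_subtype, Fintype.card_subtype]
    exact h.symm
  obtain ⟨e⟩ := Fintype.card_eq.1 h1
  refine ⟨e.extendSubtype, ?_⟩
  funext v
  by_cases hv : y' v = true
  · have := e.extendSubtype_mem v hv
    rw [hv, this]
  · have := e.extendSubtype_not_mem v hv
    have h2 : y' v = false := by simpa using hv
    have h3 : y (e.extendSubtype v) = false := by simpa using this
    rw [h2, h3]

end perm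

theorem exc : T_EXC := by
  intro V _ _ D q W F hq0 hq1 hF
  classical
  obtain ⟨c, hc⟩ : ∃ c : (V → Bool) → ℝ, c = fun y => ∑ R : Fin D → PA V, Wt q (1 / 2) R *
    ((if y ∈ ws (fd R D) W then 1 else 0) / (ws (fd R D) W).card) := ⟨_, rfl⟩
  have hsub : ∀ (κ : V → Option Bool), ws κ W ⊆ ws (fun _ => none) W := by
    intro κ y hy
    rw [exc_mem] at hy ⊢
    exact ⟨fun v b h => by simp at h, hy.2⟩
  have h1 : ∑ R : Fin D → PA V, Wt q (1 / 2) R * wm (fd R D) W F =
      ∑ y ∈ ws (fun _ : V => none) W, c y * F y := by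
    have h2 : ∀ R : Fin D → PA V, Wt q (1 / 2) R * wm (fd R D) W F =
        ∑ y ∈ ws (fun _ : V => none) W, Wt q (1 / 2) R *
          ((if y ∈ ws (fd R D) W then 1 else 0) / (ws (fd R D) W).card) * F y := by
      intro R
      unfold wm
      rw [← Finset.sum_subset (hsub (fd R D))]
      · rw [Finset.sum_div, Finset.mul_sum]
        refine Finset.sum_congr rfl fun y hy => ?_
        rw [if_pos hy]
        ring
      · intro y _ hy
        rw [if_neg hy]
        simp
    rw [Finset.sum_congr rfl fun R _ => h2 R, Finset.sum_comm]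
    refine Finset.sum_congr rfl fun y _ => ?_
    rw [hc, Finset.sum_mul]
  have hcsym : ∀ y ∈ ws (fun _ : V => none) W, ∀ y' ∈ ws (fun _ : V => none) W, c y' = c y := by
    intro y hy y' hy'
    obtain ⟨σ, rfl⟩ := exc_perm ((exc_mem.1 hy).2.trans (exc_mem.1 hy').2.symm)
    rw [hc]
    simp only []
    rw [← Equiv.sum_comp (excR σ)]
    refine Finset.sum_congr rfl fun R _ => ?_
    rw [exc_Wt_perm, exc_fd, exc_card]
    congr 2
    by_cases h : y ∈ ws (fd R D) W
    · rw [if_pos h, if_pos ((exc_ws σ (fd R D) W y).2 h)]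
    · rw [if_neg h, if_neg fun h' => h ((exc_ws σ (fd R D) W y).1 h')]
  have hcsum : ∑ y ∈ ws (fun _ : V => none) W, c y ≤ 1 := by
    have h2 : ∑ y ∈ ws (fun _ : V => none) W, c y = ∑ R : Fin D → PA V, Wt q (1 / 2) R *
        ∑ y ∈ ws (fun _ : V => none) W,
          ((if y ∈ ws (fd R D) W then 1 else 0) / ((ws (fd R D) W).card : ℝ)) := by
      rw [hc, Finset.sum_comm]
      refine Finset.sum_congr rfl fun R _ => ?_
      rw [Finset.mul_sum]
    rw [h2]
    calc _ ≤ ∑ R : Fin D → PA V, Wt q (1 / 2) R * 1 := by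
          refine Finset.sum_le_sum fun R _ => ?_
          refine mul_le_mul_of_nonneg_left ?_ (exc_Wt_nonneg hq0 hq1 R)
          rw [← Finset.sum_subset (hsub (fd R D))]
          · rw [Finset.sum_congr rfl fun y hy => by rw [if_pos hy], Finset.sum_const, nsmul_eq_mul]
            by_cases h0 : (ws (fd R D) W).card = 0
            · rw [h0]
              simp
            · have : ((ws (fd R D) W).card : ℝ) ≠ 0 := by exact_mod_cast h0
              rw [mul_one_div_cancel this]
          · intro y _ hy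
            rw [if_neg hy]
            simp
      _ = 1 := by
          simp only [mul_one]
          exact exc_Wt V D q
  rw [h1]
  unfold wm
  by_cases hne : (ws (fun _ : V => none) W).Nonempty
  · have hN : (0 : ℝ) < ((ws (fun _ : V => none) W).card : ℝ) := by
      exact_mod_cast hne.card_pos
    rw [Finset.sum_div]
    refine Finset.sum_le_sum fun y hy => ?_
    have h3 : ((ws (fun _ : V => none) W).card : ℝ) * c y ≤ 1 := by
      rw [← nsmul_eq_mul, ← Finset.sum_const]
      rw [Finset.sum_congr rfl fun y' hy' => (hcsym y hy y' hy').symm]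
      exact hcsum
    have h4 : c y ≤ 1 / ((ws (fun _ : V => none) W).card : ℝ) := by
      rw [le_div_iff₀ hN]
      linarith
    calc c y * F y ≤ 1 / ((ws (fun _ : V => none) W).card : ℝ) * F y :=
          mul_le_mul_of_nonneg_right h4 (hF y)
      _ = F y / ((ws (fun _ : V => none) W).card : ℝ) := by ring
  · rw [Finset.not_nonempty_iff_eq_empty] at hne
    rw [hne]
    simp

end Pool.Agent.H4.XQ
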