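import Pool.Agent.H78.XQ.Targets

/-!
# One Grover iteration (module GRO of xq_modules)
-/

set_option autoImplicit false

namespace Pool.Agent.H4.XQ

open Finset Pool.Agent.H78.XQ
open scoped Matrix

/-- The product of the operations of the first `t` rounds. -/
def gro_M {B : Type} [Fintype B] [DecidableEq B] (U : ℕ → Matrix B B ℂ) (D : Matrix B B ℂ) :
    ℕ → Matrix B B ℂ
  | 0 => U 0
  | t + 1 => U (t + 1) * D * gro_M U D t

lemma gro_state (A : XAlg) (O : List Bool → Bool) (t : ℕ) :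
    A.state O t = gro_M A.U (Matrix.diagonal (A.phase O)) t *ᵥ A.init := by
  induction t with
  | zero => rfl
  | succ t ih =>
    show A.U (t + 1) *ᵥ (fun i => A.phase O i * A.state O t i) = _
    rw [ih]
    simp only [gro_M]
    rw [← Matrix.mulVec_mulVec, ← Matrix.mulVec_mulVec]
    congr 1
    funext i
    rw [Matrix.mulVec_diagonal]

section

variable {B : Type} [Fintype B] [DecidableEq B]

lemma gro_unitary {U : ℕ → Matrix B B ℂ} {D : Matrix B B ℂ}
    (hU : ∀ t, U t * (U t)ᴴ = 1) (hD : D * D = 1) (hD' : Dᴴ = D) (t : ℕ) :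
    gro_M U D t * (gro_M U D t)ᴴ = 1 := by
  induction t with
  | zero => exact hU 0
  | succ t ih =>
    simp only [gro_M]
    rw [Matrix.conjTranspose_mul, Matrix.conjTranspose_mul, hD']
    calc U (t + 1) * D * gro_M U D t * ((gro_M U D t)ᴴ * (D * (U (t + 1))ᴴ)) =
          U (t + 1) * D * (gro_M U D t * (gro_M U D t)ᴴ) * (D * (U (t + 1))ᴴ) := by
          simp only [Matrix.mul_assoc]
      _ = U (t + 1) * (D * D) * (U (t + 1))ᴴ := by
          rw [ih, Matrix.mul_one]
          simp only [Matrix.mul_assoc]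
      _ = 1 := by rw [hD, Matrix.mul_one, hU]

/-- The operations of one Grover iteration. -/
def gro_U (T : ℕ) (U : ℕ → Matrix B B ℂ) (R1 R2 : Matrix B B ℂ) : ℕ → Matrix B B ℂ := fun t =>
    if t < T then U t
    else if t = T then (U T)ᴴ * R1 * U T
    else if t < 2 * T then (U (2 * T - t))ᴴ
    else if t = 2 * T then U 0 * R2 * (U 0)ᴴ
    else U (t - 2 * T)

lemma gro_main {U : ℕ → Matrix B B ℂ} {D : Matrix B B ℂ} (R1 R2 : Matrix B B ℂ) {T : ℕ}
    (hT : 1 ≤ T) (hU : ∀ t, U t * (U t)ᴴ = 1) (hD : D * D = 1) (hD' : Dᴴ = D) :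
    gro_M (gro_U T U R1 R2) D (3 * T) =
      gro_M U D T * R2 * ((gro_M U D T)ᴴ * R1 * gro_M U D T) := by
  obtain ⟨X, hX⟩ : ∃ X, X = (gro_M U D T)ᴴ * R1 * gro_M U D T := ⟨_, rfl⟩
  rw [← hX]
  have hU2 : ∀ t, (U t)ᴴ * U t = 1 := fun t => mul_eq_one_comm.1 (hU t)
  have hDx : ∀ Y : Matrix B B ℂ, D * (D * Y) = Y := fun Y => by
    rw [← Matrix.mul_assoc, hD, Matrix.one_mul]
  have hUx : ∀ t (Y : Matrix B B ℂ), (U t)ᴴ * (U t * Y) = Y := fun t Y => by
    rw [← Matrix.mul_assoc, hU2, Matrix.one_mul]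
  have h1 : ∀ t, t < T → gro_M (gro_U T U R1 R2) D t = gro_M U D t := by
    intro t
    induction t with
    | zero =>
      intro h
      simp only [gro_M, gro_U]
      rw [if_pos h]
    | succ t ih =>
      intro h
      simp only [gro_M]
      rw [ih (by omega)]
      simp only [gro_U]
      rw [if_pos h]
  have h2 : ∀ j i, i + j + 1 = T → gro_M (gro_U T U R1 R2) D (T + j) = D * gro_M U D i * X := by
    intro j
    induction j with
    | zero =>
      intro i hi
      have hi' : T = i + 1 := by omega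
      have e1 : gro_M (gro_U T U R1 R2) D (T + 0) =
          (U T)ᴴ * R1 * U T * D * gro_M U D i := by
        rw [← h1 i (by omega)]
        have e2 : gro_M (gro_U T U R1 R2) D (i + 1) = gro_U T U R1 R2 (i + 1) * D *
          gro_M (gro_U T U R1 R2) D i := rfl
        rw [Nat.add_zero]
        have e3 : gro_U T U R1 R2 (i + 1) = (U T)ᴴ * R1 * U T := by
          simp only [gro_U]
          rw [if_neg (by omega), if_pos (by omega)]
        rw [e3, ← hi'] at e2
        exact e2
      have e4 : U T * D * gro_M U D i = gro_M U D T := by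
        rw [hi']
        rfl
      have e5 : D * gro_M U D i * (gro_M U D T)ᴴ = (U T)ᴴ := by
        rw [← e4, Matrix.conjTranspose_mul, Matrix.conjTranspose_mul, hD']
        calc D * gro_M U D i * ((gro_M U D i)ᴴ * (D * (U T)ᴴ)) =
              D * (gro_M U D i * (gro_M U D i)ᴴ) * (D * (U T)ᴴ) := by
              simp only [Matrix.mul_assoc]
          _ = (U T)ᴴ := by
              rw [gro_unitary hU hD hD', Matrix.mul_one, hDx]
      rw [e1, hX]
      calc (U T)ᴴ * R1 * U T * D * gro_M U D i = (U T)ᴴ * (R1 * (U T * D * gro_M U D i)) := by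
            simp only [Matrix.mul_assoc]
        _ = D * gro_M U D i * (gro_M U D T)ᴴ * (R1 * gro_M U D T) := by rw [e4, e5]
        _ = _ := by simp only [Matrix.mul_assoc]
    | succ j ih =>
      intro i hi
      have e1 : gro_M (gro_U T U R1 R2) D (T + (j + 1)) = gro_U T U R1 R2 (T + (j + 1)) * D *
          gro_M (gro_U T U R1 R2) D (T + j) := rfl
      have e3 : gro_U T U R1 R2 (T + (j + 1)) = (U (i + 1))ᴴ := by
        simp only [gro_U]
        rw [if_neg (by omega), if_neg (by omega), if_pos (by omega)]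
        congr 2
        omega
      rw [e1, e3, ih (i + 1) (by omega)]
      simp only [gro_M]
      simp only [Matrix.mul_assoc]
      rw [hDx, hUx]
  have h3 : gro_M (gro_U T U R1 R2) D (2 * T) = gro_M U D 0 * R2 * X := by
    obtain ⟨k, hk⟩ : ∃ k, T = k + 1 := ⟨T - 1, by omega⟩
    have e1 : gro_M (gro_U T U R1 R2) D (T + k + 1) = gro_U T U R1 R2 (T + k + 1) * D *
        gro_M (gro_U T U R1 R2) D (T + k) := rfl
    have e3 : gro_U T U R1 R2 (T + k + 1) = U 0 * R2 * (U 0)ᴴ := by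
      simp only [gro_U]
      rw [if_neg (by omega), if_neg (by omega), if_neg (by omega), if_pos (by omega)]
    have e4 : 2 * T = T + k + 1 := by omega
    rw [e4, e1, e3, h2 k 0 (by omega)]
    simp only [gro_M]
    simp only [Matrix.mul_assoc]
    rw [hDx, hUx]
  have h4 : ∀ j, gro_M (gro_U T U R1 R2) D (2 * T + j) = gro_M U D j * R2 * X := by
    intro j
    induction j with
    | zero => exact h3
    | succ j ih =>
      have e1 : gro_M (gro_U T U R1 R2) D (2 * T + (j + 1)) =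
        gro_U T U R1 R2 (2 * T + (j + 1)) * D * gro_M (gro_U T U R1 R2) D (2 * T + j) := rfl
      have e3 : gro_U T U R1 R2 (2 * T + (j + 1)) = U (j + 1) := by
        simp only [gro_U]
        rw [if_neg (by omega), if_neg (by omega), if_neg (by omega), if_neg (by omega)]
        congr 1
        omega
      rw [e1, e3, ih]
      simp only [gro_M]
      simp only [Matrix.mul_assoc]
  have h5 := h4 T
  have e : 3 * T = 2 * T + T := by omega
  rw [e, h5]

end

lemma gro_phase (A : XAlg) (O : List Bool → Bool) (i : A.basis) :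
    A.phase O i = 1 ∨ A.phase O i = -1 := by
  unfold XAlg.phase
  induction A.query i with
  | nil => left; rfl
  | cons w L ih =>
    rw [List.map_cons, List.prod_cons]
    by_cases hw : O w = true
    · rw [if_pos hw]
      rcases ih with h | h
      · right
        rw [h]
        norm_num
      · left
        rw [h]
        norm_num
    · rw [if_neg hw, one_mul]
      exact ih

theorem gro (hNRM : T_NRM) : T_GRO := by
  intro A hT O
  obtain ⟨D, hDdef⟩ : ∃ D, D = Matrix.diagonal (A.phase O) := ⟨_, rfl⟩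
  have hD : D * D = 1 := by
    rw [hDdef, Matrix.diagonal_mul_diagonal]
    ext i j
    rw [Matrix.diagonal_apply, Matrix.one_apply]
    by_cases h : i = j
    · rw [if_pos h, if_pos h]
      rcases gro_phase A O i with h1 | h1 <;> rw [h1] <;> norm_num
    · rw [if_neg h, if_neg h]
  have hD' : Dᴴ = D := by
    rw [hDdef, Matrix.diagonal_conjTranspose]
    congr 1
    funext i
    rw [Pi.star_apply]
    rcases gro_phase A O i with h1 | h1 <;> rw [h1] <;> simp
  have hU : ∀ t, A.U t * (A.U t)ᴴ = 1 := fun t => by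
    have := Matrix.mem_unitaryGroup_iff.1 (A.unitary t)
    rwa [Matrix.star_eq_conjTranspose] at this
  obtain ⟨M, hM⟩ : ∃ M, M = gro_M A.U D A.T := ⟨_, rfl⟩
  have hMU : M * Mᴴ = 1 := by
    rw [hM]
    exact gro_unitary hU hD hD' _
  obtain ⟨ψ, hψ⟩ : ∃ ψ, ψ = A.state O A.T := ⟨_, rfl⟩
  have hψM : ψ = M *ᵥ A.init := by
    rw [hψ, hM, gro_state, hDdef]
  have hn : ∑ i, ‖ψ i‖ ^ 2 = 1 := by
    rw [hψ]
    exact hNRM A O A.T
  have hp : A.prob O = ∑ i ∈ A.acc, ‖ψ i‖ ^ 2 := by
    rw [hψ]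
    rfl
  have hfin : (grov A).state O (3 * A.T) =
      M *ᵥ (rfl2 A *ᵥ (Mᴴ *ᵥ (rfl1 A *ᵥ ψ))) := by
    have h1 : (grov A).state O (3 * A.T) =
        gro_M (gro_U A.T A.U (rfl1 A) (rfl2 A)) D (3 * A.T) *ᵥ A.init := by
      rw [hDdef]
      exact gro_state (grov A) O (3 * A.T)
    rw [h1, gro_main (rfl1 A) (rfl2 A) hT hU hD hD', ← hM, hψM]
    simp only [Matrix.mulVec_mulVec, Matrix.mul_assoc]
  have hr1 : ∀ i, (rfl1 A *ᵥ ψ) i = (if i ∈ A.acc then -1 else 1) * ψ i := by
    intro i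
    rw [rfl1, Matrix.mulVec_diagonal]
  have hr2 : ∀ w : A.basis → ℂ, rfl2 A *ᵥ w = (2 * (star A.init ⬝ᵥ w)) • A.init - w := by
    intro w
    funext i
    rw [Pi.sub_apply, Pi.smul_apply, smul_eq_mul]
    simp only [Matrix.mulVec, dotProduct, rfl2, Matrix.of_apply, sub_mul, Finset.sum_sub_distrib,
      ite_mul, one_mul, zero_mul, Finset.sum_ite_eq, Finset.mem_univ, if_true, Pi.star_apply]
    rw [Finset.mul_sum, Finset.sum_mul]
    congr 1
    refine Finset.sum_congr rfl fun j _ => ?_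
    ring
  have hc : star A.init ⬝ᵥ (Mᴴ *ᵥ (rfl1 A *ᵥ ψ)) = ((1 - 2 * A.prob O : ℝ) : ℂ) := by
    rw [Matrix.dotProduct_mulVec, ← Matrix.star_mulVec, ← hψM]
    have h1 : star ψ ⬝ᵥ (rfl1 A *ᵥ ψ) =
        ∑ i, (((if i ∈ A.acc then -1 else 1) * ‖ψ i‖ ^ 2 : ℝ) : ℂ) := by
      simp only [dotProduct]
      refine Finset.sum_congr rfl fun i _ => ?_
      rw [hr1, Pi.star_apply]
      have h2 : star (ψ i) * ψ i = ((‖ψ i‖ ^ 2 : ℝ) : ℂ) := by
        rw [Complex.star_def, mul_comm, Complex.mul_conj, Complex.normSq_eq_norm_sq]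
      by_cases hi : i ∈ A.acc
      · simp only [if_pos hi]
        push_cast
        push_cast at h2
        rw [← h2]
        ring
      · simp only [if_neg hi]
        push_cast
        push_cast at h2
        rw [← h2]
        ring
    rw [h1, ← Complex.ofReal_sum]
    congr 1
    have h3 : ∀ i, (if i ∈ A.acc then (-1 : ℝ) else 1) * ‖ψ i‖ ^ 2 =
        ‖ψ i‖ ^ 2 - 2 * (if i ∈ A.acc then ‖ψ i‖ ^ 2 else 0) := by
      intro i
      split_ifs <;> ring
    rw [Finset.sum_congr rfl fun i _ => h3 i, Finset.sum_sub_distrib, hn, ← Finset.mul_sum,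
      Finset.sum_ite_mem, Finset.univ_inter, ← hp]
  have hfi : ∀ i ∈ A.acc, (grov A).state O (3 * A.T) i = ((3 - 4 * A.prob O : ℝ) : ℂ) * ψ i := by
    intro i hi
    rw [hfin, hr2, hc, Matrix.mulVec_sub, Matrix.mulVec_smul, ← hψM, Matrix.mulVec_mulVec, hMU,
      Matrix.one_mulVec]
    show (2 * ((1 - 2 * A.prob O : ℝ) : ℂ)) * ψ i - (rfl1 A *ᵥ ψ) i = _
    rw [hr1, if_pos hi]
    push_cast
    ring
  have hg : (grov A).prob O = ∑ i ∈ A.acc, ‖(grov A).state O (3 * A.T) i‖ ^ 2 := rfl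
  have hg2 : ∑ i ∈ A.acc, ‖(grov A).state O (3 * A.T) i‖ ^ 2 =
      ∑ i ∈ A.acc, (3 - 4 * A.prob O) ^ 2 * ‖ψ i‖ ^ 2 := by
    refine Finset.sum_congr rfl fun i hi => ?_
    rw [hfi i hi, norm_mul, mul_pow, Complex.norm_real, Real.norm_eq_abs, sq_abs]
  rw [hg, hg2, ← Finset.mul_sum, ← hp]

end Pool.Agent.H4.XQ
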