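import Pool.Agent.H78.XQ.Targets

/-!
# The numbers of stars and of ones of a random restriction (module HOE of xq_modules)
-/

set_option autoImplicit false

namespace Pool.Agent.H4.XQ

open Finset Pool.Agent.H78.XQ
open Pool.Agent.H68.AC (PA Wt wt w1 fd mrg Ext ind)

/-- The merged value of a column. -/
def hoe_cf {n : ℕ} (c : Fin n → Option Bool) : Option Bool := fd (V := Unit) (fun j _ => c j) n ()

lemma hoe_fd {V : Type} {D : ℕ} (R : Fin D → PA V) (v : V) (n : ℕ) :
    fd R n v = fd (V := Unit) (fun j _ => R j v) n () := by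
  induction n with
  | zero => rfl
  | succ n ih =>
    simp only [fd, mrg]
    rw [ih]

lemma hoe_snoc {n : ℕ} (c : Fin n → Option Bool) (a : Option Bool) :
    hoe_cf (Fin.snoc (α := fun _ => Option Bool) c a) =
      (match hoe_cf c with
        | some b => some b
        | none => a) := by
  have h1 : ∀ m, m ≤ n → fd (V := Unit) (fun j _ => (Fin.snoc (α := fun _ => Option Bool) c a) j) m () =
      fd (V := Unit) (fun j _ => c j) m () := by
    intro m
    induction m with
    | zero => intro _; rfl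
    | succ m ih =>
      intro hm
      simp only [fd, mrg]
      rw [ih (by omega)]
      have h2 : m < n + 1 := by omega
      have h3 : m < n := by omega
      simp only [dif_pos h2, dif_pos h3]
      have h4 : (⟨m, h2⟩ : Fin (n + 1)) = Fin.castSucc ⟨m, h3⟩ := rfl
      rw [h4, Fin.snoc_castSucc]
  have h5 : n < n + 1 := by omega
  show fd (V := Unit) (fun j _ => (Fin.snoc (α := fun _ => Option Bool) c a) j) (n + 1) () = _
  simp only [fd, mrg]
  rw [h1 n le_rfl]
  simp only [dif_pos h5]
  have h6 : (⟨n, h5⟩ : Fin (n + 1)) = Fin.last n := rfl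
  rw [h6, Fin.snoc_last]
  rfl

lemma hoe_col (q : ℝ) : ∀ (n : ℕ) (G : Option Bool → ℝ),
    ∑ c : Fin n → Option Bool, (∏ j, w1 q (1 / 2) (c j)) * G (hoe_cf c) =
      q ^ n * G none + (1 - q ^ n) / 2 * (G (some true) + G (some false)) := by
  intro n
  induction n with
  | zero =>
    intro G
    have h0 : ∀ c : Fin 0 → Option Bool, hoe_cf c = none := fun _ => rfl
    simp [h0]
  | succ n ih =>
    intro G
    have h1 : ∑ c : Fin (n + 1) → Option Bool, (∏ j, w1 q (1 / 2) (c j)) * G (hoe_cf c) =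
        ∑ p : Option Bool × (Fin n → Option Bool),
          (∏ j, w1 q (1 / 2) (Fin.snoc (α := fun _ => Option Bool) p.2 p.1 j)) *
            G (hoe_cf (Fin.snoc (α := fun _ => Option Bool) p.2 p.1)) := by
      exact (Equiv.sum_comp (Fin.snocEquiv (fun _ : Fin (n + 1) => Option Bool))
        (fun c : Fin (n + 1) → Option Bool => (∏ j, w1 q (1 / 2) (c j)) * G (hoe_cf c))).symm
    rw [h1, Fintype.sum_prod_type, Finset.sum_comm]
    have h2 : ∀ c : Fin n → Option Bool, ∑ a : Option Bool,
        (∏ j, w1 q (1 / 2) (Fin.snoc (α := fun _ => Option Bool) c a j)) *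
            G (hoe_cf (Fin.snoc (α := fun _ => Option Bool) c a)) =
        (∏ j, w1 q (1 / 2) (c j)) * (fun x : Option Bool => ∑ a : Option Bool, w1 q (1 / 2) a *
          G (match x with
            | some b => some b
            | none => a)) (hoe_cf c) := by
      intro c
      simp only []
      rw [Finset.mul_sum]
      refine Finset.sum_congr rfl fun a _ => ?_
      rw [hoe_snoc, Fin.prod_univ_castSucc]
      simp only [Fin.snoc_castSucc, Fin.snoc_last]
      ring
    refine (Finset.sum_congr rfl fun c _ => h2 c).trans ((ih (fun x : Option Bool =>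
      ∑ a : Option Bool, w1 q (1 / 2) a * G (match x with
            | some b => some b
            | none => a))).trans ?_)
    simp only [Fintype.sum_option, Fintype.sum_bool, w1]
    ring

lemma hoe_prod {V : Type} [Fintype V] [DecidableEq V] (D : ℕ) (q : ℝ) (G : Option Bool → ℝ) :
    ∑ R : Fin D → PA V, Wt q (1 / 2) R * ∏ v, G (fd R D v) =
      (q ^ D * G none + (1 - q ^ D) / 2 * (G (some true) + G (some false))) ^ Fintype.card V := by
  have h1 : ∀ R : Fin D → PA V, Wt q (1 / 2) R * ∏ v, G (fd R D v) =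
      ∏ v, (∏ j, w1 q (1 / 2) (R j v)) * G (hoe_cf fun j => R j v) := by
    intro R
    unfold Wt wt
    rw [Finset.prod_comm, ← Finset.prod_mul_distrib]
    refine Finset.prod_congr rfl fun v _ => ?_
    rw [hoe_fd]
    rfl
  rw [Finset.sum_congr rfl fun R _ => h1 R]
  have h2 : ∑ R : Fin D → PA V, ∏ v, (∏ j, w1 q (1 / 2) (R j v)) * G (hoe_cf fun j => R j v) =
      ∑ S : V → Fin D → Option Bool, ∏ v, (∏ j, w1 q (1 / 2) (S v j)) * G (hoe_cf (S v)) := by
    exact Equiv.sum_comp (Equiv.piComm fun (_ : Fin D) (_ : V) => Option Bool)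
      (fun S : V → Fin D → Option Bool => ∏ v, (∏ j, w1 q (1 / 2) (S v j)) * G (hoe_cf (S v)))
  rw [h2, ← Fintype.prod_sum (fun (_ : V) (c : Fin D → Option Bool) =>
    (∏ j, w1 q (1 / 2) (c j)) * G (hoe_cf c)), Finset.prod_congr rfl fun _ _ => hoe_col q D G,
    Finset.prod_const, Finset.card_univ]

lemma hoe_exp_le {x : ℝ} (hx : |x| ≤ 1) : Real.exp x ≤ 1 + x + x ^ 2 := by
  have h := Real.abs_exp_sub_one_sub_id_le hx
  have := (abs_le.1 h).2
  linarith

/-- The exponential moment. -/
lemma hoe_mom {V : Type} [Fintype V] [DecidableEq V] (D : ℕ) (q s μ : ℝ) (a : Option Bool)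
    (hq0 : 0 < q) (hq1 : q ≤ 1) (hs : |s| ≤ 1)
    (hμ : μ = q ^ D * (if a = none then 1 else 0) + (1 - q ^ D) / 2 *
      ((if a = some true then 1 else 0) + (if a = some false then 1 else 0))) (hμ0 : 0 ≤ μ)
    (hμ1 : μ ≤ 1) :
    ∑ R : Fin D → PA V, Wt q (1 / 2) R *
      Real.exp (s * ((nv (fd R D) a : ℝ) - μ * Fintype.card V)) ≤
        Real.exp (s ^ 2 * Fintype.card V) := by
  classical
  have h0 : ∀ R : Fin D → PA V, Real.exp (s * ((nv (fd R D) a : ℝ) - μ * Fintype.card V)) =
      ∏ v, (fun x : Option Bool => Real.exp (s * ((if x = a then 1 else 0) - μ))) (fd R D v) := by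
    intro R
    simp only []
    rw [← Real.exp_sum]
    congr 1
    rw [← Finset.mul_sum, Finset.sum_sub_distrib, Finset.sum_const, Finset.card_univ,
      nsmul_eq_mul]
    unfold nv
    rw [Finset.card_filter]
    push_cast
    ring
  have h00 := hoe_prod (V := V) D q
    (fun x : Option Bool => Real.exp (s * ((if x = a then 1 else 0) - μ)))
  rw [Finset.sum_congr rfl fun R _ => by rw [h0 R], h00]
  have hb : ∀ x : Option Bool, Real.exp (s * ((if x = a then 1 else 0) - μ)) ≤
      1 + s * ((if x = a then 1 else 0) - μ) + s ^ 2 := by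
    intro x
    have h1 : |(if x = a then (1 : ℝ) else 0) - μ| ≤ 1 := by
      rw [abs_le]
      split_ifs <;> constructor <;> linarith
    have h2 : |s * ((if x = a then (1 : ℝ) else 0) - μ)| ≤ 1 := by
      rw [abs_mul]
      calc |s| * |(if x = a then (1 : ℝ) else 0) - μ| ≤ 1 * 1 :=
            mul_le_mul hs h1 (abs_nonneg _) zero_le_one
        _ = 1 := one_mul 1
    have h3 : ((if x = a then (1 : ℝ) else 0) - μ) ^ 2 ≤ 1 := by
      rw [← sq_abs]
      calc |(if x = a then (1 : ℝ) else 0) - μ| ^ 2 ≤ 1 ^ 2 :=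
            pow_le_pow_left₀ (abs_nonneg _) h1 2
        _ = 1 := one_pow 2
    have h4 := hoe_exp_le h2
    have h5 : (s * ((if x = a then (1 : ℝ) else 0) - μ)) ^ 2 ≤ s ^ 2 := by
      rw [mul_pow]
      nlinarith [sq_nonneg s]
    linarith
  have hqD0 : 0 ≤ q ^ D := pow_nonneg hq0.le D
  have hqD1 : q ^ D ≤ 1 := pow_le_one₀ hq0.le hq1
  have hsum : q ^ D * Real.exp (s * ((if none = a then 1 else 0) - μ)) + (1 - q ^ D) / 2 *
      (Real.exp (s * ((if some true = a then 1 else 0) - μ)) +
        Real.exp (s * ((if some false = a then 1 else 0) - μ))) ≤ 1 + s ^ 2 := by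
    have e1 := mul_le_mul_of_nonneg_left (hb none) hqD0
    have e2 := mul_le_mul_of_nonneg_left (add_le_add (hb (some true)) (hb (some false)))
      (show 0 ≤ (1 - q ^ D) / 2 by linarith)
    refine (add_le_add e1 e2).trans (le_of_eq ?_)
    rcases a with _ | _ | _
    · simp only [if_true, reduceCtorEq, if_false] at hμ ⊢
      rw [hμ]
      ring
    · simp only [if_true, reduceCtorEq, if_false, Option.some.injEq, Bool.false_eq_true,
        Bool.true_eq_false] at hμ ⊢
      rw [hμ]
      ring
    · simp only [if_true, reduceCtorEq, if_false, Option.some.injEq, Bool.false_eq_true,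
        Bool.true_eq_false] at hμ ⊢
      rw [hμ]
      ring
  have hnn : 0 ≤ q ^ D * Real.exp (s * ((if none = a then 1 else 0) - μ)) + (1 - q ^ D) / 2 *
      (Real.exp (s * ((if some true = a then 1 else 0) - μ)) +
        Real.exp (s * ((if some false = a then 1 else 0) - μ))) := by
    have : 0 ≤ (1 - q ^ D) / 2 := by linarith
    positivity
  calc _ ≤ (1 + s ^ 2) ^ Fintype.card V := pow_le_pow_left₀ hnn hsum _
    _ ≤ Real.exp (s ^ 2) ^ Fintype.card V := by
        refine pow_le_pow_left₀ (by positivity) ?_ _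
        have := Real.add_one_le_exp (s ^ 2)
        linarith
    _ = Real.exp (s ^ 2 * Fintype.card V) := by
        rw [← Real.exp_nat_mul]
        congr 1
        ring

lemma hoe_Wt_nonneg {V : Type} [Fintype V] {D : ℕ} {q : ℝ} (h0 : 0 ≤ q) (h1 : q ≤ 1)
    (R : Fin D → PA V) : 0 ≤ Wt q (1 / 2) R := by
  refine Finset.prod_nonneg fun j _ => Finset.prod_nonneg fun v _ => ?_
  rcases R j v with _ | _ | _
  · exact h0
  · show 0 ≤ (1 - q) * (1 - 1 / 2)
    nlinarith
  · show 0 ≤ (1 - q) * (1 / 2)
    nlinarith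

lemma hoe_nv_le {V : Type} [Fintype V] (κ : V → Option Bool) (a : Option Bool) :
    (nv κ a : ℝ) ≤ Fintype.card V := by
  unfold nv
  exact_mod_cast Finset.card_le_univ _

/-- The tail bound. -/
lemma hoe_tail {V : Type} [Fintype V] [DecidableEq V] (D : ℕ) (q s t μ : ℝ) (a : Option Bool)
    (hq0 : 0 < q) (hq1 : q ≤ 1) (hs : s = t / 2 ∨ s = -(t / 2)) (ht0 : 0 ≤ t) (ht1 : t ≤ 1)
    (hμ : μ = q ^ D * (if a = none then 1 else 0) + (1 - q ^ D) / 2 *
      ((if a = some true then 1 else 0) + (if a = some false then 1 else 0))) (hμ0 : 0 ≤ μ)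
    (hμ1 : μ ≤ 1) :
    ∑ R : Fin D → PA V, Wt q (1 / 2) R *
      Real.exp (s * ((nv (fd R D) a : ℝ) - μ * Fintype.card V) - t / 2 * (t * Fintype.card V)) ≤
        Real.exp (-(Fintype.card V * t ^ 2 / 4)) := by
  have hs1 : |s| ≤ 1 := by
    rw [abs_le]
    rcases hs with h | h <;> constructor <;> linarith
  have h := hoe_mom (V := V) D q s μ a hq0 hq1 hs1 hμ hμ0 hμ1
  have h1 : ∀ R : Fin D → PA V, Wt q (1 / 2) R *
      Real.exp (s * ((nv (fd R D) a : ℝ) - μ * Fintype.card V) - t / 2 * (t * Fintype.card V)) =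
      Wt q (1 / 2) R * Real.exp (s * ((nv (fd R D) a : ℝ) - μ * Fintype.card V)) *
        Real.exp (-(t / 2 * (t * Fintype.card V))) := by
    intro R
    rw [sub_eq_add_neg, Real.exp_add]
    ring
  rw [Finset.sum_congr rfl fun R _ => h1 R, ← Finset.sum_mul]
  calc _ ≤ Real.exp (s ^ 2 * Fintype.card V) * Real.exp (-(t / 2 * (t * Fintype.card V))) :=
        mul_le_mul_of_nonneg_right h (Real.exp_pos _).le
    _ = Real.exp (-(Fintype.card V * t ^ 2 / 4)) := by
        rw [← Real.exp_add]
        congr 1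
        have : s ^ 2 = t ^ 2 / 4 := by
          rcases hs with h | h <;> rw [h] <;> ring
        rw [this]
        ring

lemma hoe_ind_le {M t x y : ℝ} (ht : 0 ≤ t) :
    ind (¬ (|x| ≤ t * M ∧ |y| ≤ t * M)) ≤
      (Real.exp (t / 2 * x - t / 2 * (t * M)) + Real.exp (-(t / 2) * x - t / 2 * (t * M))) +
      (Real.exp (t / 2 * y - t / 2 * (t * M)) + Real.exp (-(t / 2) * y - t / 2 * (t * M))) := by
  have key : ∀ z : ℝ, ¬ |z| ≤ t * M →
      1 ≤ Real.exp (t / 2 * z - t / 2 * (t * M)) + Real.exp (-(t / 2) * z - t / 2 * (t * M)) := by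
    intro z hz
    push Not at hz
    rcases lt_abs.1 hz with h | h
    · have h1 : 0 ≤ t / 2 * z - t / 2 * (t * M) := by nlinarith
      have := Real.one_le_exp h1
      have h2 := (Real.exp_pos (-(t / 2) * z - t / 2 * (t * M))).le
      linarith
    · have h1 : 0 ≤ -(t / 2) * z - t / 2 * (t * M) := by nlinarith
      have := Real.one_le_exp h1
      have h2 := (Real.exp_pos (t / 2 * z - t / 2 * (t * M))).le
      linarith
  have hp : ∀ z : ℝ, 0 ≤ Real.exp (t / 2 * z - t / 2 * (t * M)) +
      Real.exp (-(t / 2) * z - t / 2 * (t * M)) := fun z => by positivity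
  unfold ind
  by_cases h : |x| ≤ t * M ∧ |y| ≤ t * M
  · rw [if_neg (not_not.2 h)]
    have := hp x
    have := hp y
    linarith
  · rw [if_pos h]
    rw [not_and_or] at h
    rcases h with h | h
    · have := key x h
      have := hp y
      linarith
    · have := key y h
      have := hp x
      linarith

theorem hoe : T_HOE := by
  intro V _ _ D q t hq0 hq1 ht0
  have hqD0 : 0 ≤ q ^ D := pow_nonneg hq0.le D
  have hqD1 : q ^ D ≤ 1 := pow_le_one₀ hq0.le hq1
  have hM : (0 : ℝ) ≤ Fintype.card V := Nat.cast_nonneg _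
  by_cases ht1 : t ≤ 1
  · have b1 : ∀ s : ℝ, s = t / 2 ∨ s = -(t / 2) → ∑ R : Fin D → PA V, Wt q (1 / 2) R *
        Real.exp (s * ((nv (fd R D) none : ℝ) - q ^ D * Fintype.card V) -
          t / 2 * (t * Fintype.card V)) ≤ Real.exp (-(Fintype.card V * t ^ 2 / 4)) := by
      intro s hs
      refine hoe_tail D q s t (q ^ D) none hq0 hq1 hs ht0 ht1 ?_ hqD0 hqD1
      simp
    have b2 : ∀ s : ℝ, s = t / 2 ∨ s = -(t / 2) → ∑ R : Fin D → PA V, Wt q (1 / 2) R *
        Real.exp (s * ((nv (fd R D) (some true) : ℝ) - (1 - q ^ D) / 2 * Fintype.card V) -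
          t / 2 * (t * Fintype.card V)) ≤ Real.exp (-(Fintype.card V * t ^ 2 / 4)) := by
      intro s hs
      refine hoe_tail D q s t ((1 - q ^ D) / 2) (some true) hq0 hq1 hs ht0 ht1 ?_ (by linarith)
        (by linarith)
      simp
    calc _ ≤ ∑ R : Fin D → PA V, Wt q (1 / 2) R *
          ((Real.exp (t / 2 * ((nv (fd R D) none : ℝ) - q ^ D * Fintype.card V) -
            t / 2 * (t * Fintype.card V)) +
          Real.exp (-(t / 2) * ((nv (fd R D) none : ℝ) - q ^ D * Fintype.card V) -
            t / 2 * (t * Fintype.card V))) +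
          (Real.exp (t / 2 * ((nv (fd R D) (some true) : ℝ) - (1 - q ^ D) / 2 * Fintype.card V) -
            t / 2 * (t * Fintype.card V)) +
          Real.exp (-(t / 2) * ((nv (fd R D) (some true) : ℝ) -
            (1 - q ^ D) / 2 * Fintype.card V) - t / 2 * (t * Fintype.card V)))) := by
          refine Finset.sum_le_sum fun R _ => ?_
          exact mul_le_mul_of_nonneg_left (hoe_ind_le ht0) (hoe_Wt_nonneg hq0.le hq1 R)
      _ ≤ 4 * Real.exp (-(Fintype.card V * t ^ 2 / 4)) := by
          simp only [mul_add, Finset.sum_add_distrib]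
          have c1 := b1 _ (Or.inl rfl)
          have c2 := b1 _ (Or.inr rfl)
          have c3 := b2 _ (Or.inl rfl)
          have c4 := b2 _ (Or.inr rfl)
          linarith
  · push Not at ht1
    have h1 : ∀ R : Fin D → PA V, Wt q (1 / 2) R * ind (¬
        (|(nv (fd R D) none : ℝ) - q ^ D * Fintype.card V| ≤ t * Fintype.card V ∧
          |(nv (fd R D) (some true) : ℝ) - (1 - q ^ D) / 2 * Fintype.card V| ≤
            t * Fintype.card V)) = 0 := by
      intro R
      have e : ∀ (μ : ℝ) (a : Option Bool), 0 ≤ μ → μ ≤ 1 →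
          |(nv (fd R D) a : ℝ) - μ * Fintype.card V| ≤ t * Fintype.card V := by
        intro μ a hμ0 hμ1
        have h2 := hoe_nv_le (fd R D) a
        have h3 : (0 : ℝ) ≤ nv (fd R D) a := Nat.cast_nonneg _
        have h4 : (Fintype.card V : ℝ) ≤ t * Fintype.card V := by nlinarith
        rw [abs_le]
        constructor <;> nlinarith
      unfold ind
      rw [if_neg]
      · simp
      · rw [not_not]
        exact ⟨e _ _ hqD0 hqD1, e _ _ (by linarith) (by linarith)⟩
    rw [Finset.sum_congr rfl fun R _ => h1 R, Finset.sum_const_zero]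
    positivity

end Pool.Agent.H4.XQ
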